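import Pool.Agent.Helper158.Stall.Grp

/-!
# Stallings' conjecture `B_n(p)` in the free group of rank `m + 2`

The subgroup `S = ⟨b, t b⁻¹ t⁻², x_3, …⟩` of the free group on `b, t, x_3, …`.
The word `u⁻¹` of the starting file, written in the two elements `b` and `t b⁻¹ t⁻²`, is a product
of eight conjugates of letters in `F`, but not in `S`.
-/

set_option autoImplicit false
open scoped TensorProduct

namespace Pool.Agent.Y874.StB

open FreeGroup hiding map_mul map_inv map_one
open Pool.Agent.Helper158.Stall

/-! ### dependence and lists -/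

/-- `a` is a product of `G`-conjugates of `g 0, …, g (n-1)`, in this order -/
def Dependent {G : Type*} [Group G] {n : ℕ} (a : G) (g : Fin n → G) : Prop :=
  ∃ c : Fin n → G, a = (List.ofFn fun i => c i * g i * (c i)⁻¹).prod

theorem dependent_iff {G : Type*} [Group G] {n : ℕ} (a : G) (g : Fin n → G) :
    Dependent a g ↔ ∃ T : List (G × G), T.map Prod.snd = List.ofFn g ∧
      a = (T.map fun p => p.1 * p.2 * p.1⁻¹).prod := by
  constructor
  · rintro ⟨c, hc⟩
    refine ⟨List.ofFn fun i => (c i, g i), ?_, ?_⟩
    · rw [List.map_ofFn]; rfl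
    · rw [List.map_ofFn]; exact hc
  · rintro ⟨T, hT, ha⟩
    have hlen : T.length = n := by
      have := congrArg List.length hT
      simpa using this
    subst hlen
    have hg : g = fun i => (T.get i).2 := by
      apply List.ofFn_injective
      rw [← hT]
      conv_lhs => rw [← List.ofFn_get T]
      rw [List.map_ofFn]
      rfl
    subst hg
    refine ⟨fun i => (T.get i).1, ?_⟩
    rw [ha]
    conv_lhs => rw [← List.ofFn_get T]
    rw [List.map_ofFn]
    rfl

theorem exists_fn {A : Type*} (L : List A) {n : ℕ} (hn : L.length = n) :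
    ∃ g : Fin n → A, List.ofFn g = L := by
  subst hn
  exact ⟨L.get, List.ofFn_get L⟩

theorem prod_filter {A G : Type*} [Group G] (f : A → G) (q : A → Bool) (L : List A)
    (h : ∀ x ∈ L, q x = false → f x = 1) :
    ((L.filter q).map f).prod = (L.map f).prod := by
  induction L with
  | nil => rfl
  | cons x L ih =>
    have ih' := ih (fun y hy => h y (List.mem_cons_of_mem _ hy))
    cases hx : q x with
    | true =>
      rw [List.filter_cons_of_pos (by simpa using hx), List.map_cons, List.prod_cons, List.map_cons,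
        List.prod_cons, ih']
    | false =>
      rw [List.filter_cons_of_neg (by simp [hx]), List.map_cons, List.prod_cons,
        h x List.mem_cons_self hx, one_mul, ih']

/-! ### the subgroup -/

variable (m : ℕ)

/-- the element `t b⁻¹ t⁻²` -/
def uel : FreeGroup (Fin (m + 2)) := of 1 * (of 0)⁻¹ * (of 1)⁻¹ * (of 1)⁻¹

/-- the generators `b, t b⁻¹ t⁻², x_3, …` -/
def gen : Fin (m + 2) → FreeGroup (Fin (m + 2)) := Function.update of 1 (uel m)

/-- the subgroup generated by `b`, `t b⁻¹ t⁻²` and the remaining generators -/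
def S : Subgroup (FreeGroup (Fin (m + 2))) := Subgroup.closure (Set.range (gen m))

theorem gen_zero : gen m 0 = of 0 := by
  rw [gen, Function.update_of_ne (by simp)]

theorem gen_one : gen m 1 = uel m := by
  rw [gen, Function.update_self]

theorem gen_of_ne {i : Fin (m + 2)} (h : i ≠ 1) : gen m i = of i := by
  rw [gen, Function.update_of_ne h]

theorem gen_mem (i : Fin (m + 2)) : gen m i ∈ S m := Subgroup.subset_closure ⟨i, rfl⟩

/-! ### the map on homology -/

theorem bij_of_inverse' {A B : Type*} [CommGroup A] [CommGroup B] (f : A →* B) (g : B →* A)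
    (h1 : ∀ x, g (f x) = x) (h2 : ∀ y, f (g y) = y) (M : Type*) [AddCommGroup M] [Module ℤ M] :
    Function.Bijective (LinearMap.rTensor M
      (AddMonoidHom.toIntLinearMap (MonoidHom.toAdditive f))) := by
  set φ := AddMonoidHom.toIntLinearMap (MonoidHom.toAdditive f) with hφ
  set ψ := AddMonoidHom.toIntLinearMap (MonoidHom.toAdditive g) with hψ
  have e1 : ψ ∘ₗ φ = LinearMap.id := by
    apply LinearMap.ext
    intro x
    exact congrArg Additive.ofMul (h1 x.toMul)
  have e2 : φ ∘ₗ ψ = LinearMap.id := by
    apply LinearMap.ext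
    intro x
    exact congrArg Additive.ofMul (h2 x.toMul)
  constructor
  · apply Function.LeftInverse.injective (g := LinearMap.rTensor M ψ)
    intro x
    have := congrArg (fun F => F x) (LinearMap.rTensor_comp M ψ φ)
    rw [e1, LinearMap.rTensor_id] at this
    exact this.symm
  · apply Function.RightInverse.surjective (g := LinearMap.rTensor M ψ)
    intro x
    have := congrArg (fun F => F x) (LinearMap.rTensor_comp M φ ψ)
    rw [e2, LinearMap.rTensor_id] at this
    exact this.symm

/-- the images of the generators in `S^ab` -/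
noncomputable def cls : Fin (m + 2) → Abelianization (S m) :=
  fun i => Abelianization.of ⟨gen m i, gen_mem m i⟩

/-- the classes in `S^ab` of the generators of `F` -/
noncomputable def gens : Fin (m + 2) → Abelianization (S m) :=
  Function.update (cls m) 1 ((cls m 1)⁻¹ * (cls m 0)⁻¹)

/-- the inverse map `F^ab → S^ab` -/
noncomputable def back : Abelianization (FreeGroup (Fin (m + 2))) →* Abelianization (S m) :=
  Abelianization.lift (FreeGroup.lift (gens m))

theorem back_of (i : Fin (m + 2)) : back m (Abelianization.of (of i)) = gens m i := by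
  simp [back]

theorem back_gen (i : Fin (m + 2)) :
    back m (Abelianization.of (gen m i)) = Abelianization.of ⟨gen m i, gen_mem m i⟩ := by
  by_cases hi : i = 1
  · subst hi
    have h0 : back m (Abelianization.of (gen m 1)) = back m (Abelianization.of
      (of 1 * (of 0)⁻¹ * (of 1)⁻¹ * (of 1)⁻¹)) := by rw [gen_one, uel]
    rw [h0]
    simp only [map_mul, map_inv]
    rw [back_of, back_of, gens, Function.update_self, Function.update_of_ne (by simp)]
    show _ = cls m 1
    generalize cls m 1 = x
    generalize cls m 0 = y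
    calc x⁻¹ * y⁻¹ * y⁻¹ * (x⁻¹ * y⁻¹)⁻¹ * (x⁻¹ * y⁻¹)⁻¹
        = (x⁻¹ * y⁻¹) * y⁻¹ * ((x⁻¹ * y⁻¹)⁻¹ * (x⁻¹ * y⁻¹)⁻¹) := by
          simp only [mul_assoc]
      _ = (x⁻¹ * y⁻¹) * (x⁻¹ * y⁻¹)⁻¹ * (y⁻¹ * (x⁻¹ * y⁻¹)⁻¹) := by
          generalize x⁻¹ * y⁻¹ = z
          calc z * y⁻¹ * (z⁻¹ * z⁻¹) = z * (y⁻¹ * z⁻¹) * z⁻¹ := by simp only [mul_assoc]
            _ = z * (z⁻¹ * y⁻¹) * z⁻¹ := by rw [mul_comm y⁻¹ z⁻¹]
            _ = z * z⁻¹ * (y⁻¹ * z⁻¹) := by simp only [mul_assoc]
      _ = x := by
          rw [mul_inv_cancel, one_mul, mul_inv_rev, inv_inv, inv_inv, inv_mul_cancel_left]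
  · have h0 : back m (Abelianization.of (gen m i)) = back m (Abelianization.of (of i)) := by
      rw [gen_of_ne m hi]
    rw [h0, back_of, gens, Function.update_of_ne hi]
    rfl

theorem back_map (x : Abelianization (S m)) :
    back m (Abelianization.map (S m).subtype x) = x := by
  have : ((back m).comp (Abelianization.map (S m).subtype)) = MonoidHom.id _ := by
    apply Abelianization.hom_ext
    ext1 s
    obtain ⟨s, hs⟩ := s
    show back m (Abelianization.of s) = Abelianization.of ⟨s, hs⟩
    refine Subgroup.closure_induction (p := fun s hs => back m (Abelianization.of s) =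
      Abelianization.of (⟨s, hs⟩ : S m)) ?_ ?_ ?_ ?_ hs
    · rintro x ⟨i, rfl⟩
      exact back_gen m i
    · rw [map_one, map_one]
      exact (map_one (Abelianization.of (G := S m))).symm
    · intro x y hx hy h1 h2
      rw [map_mul, map_mul, h1, h2]
      exact (map_mul (Abelianization.of (G := S m)) _ _).symm
    · intro x hx h1
      rw [map_inv, map_inv, h1]
      exact (map_inv (Abelianization.of (G := S m)) _).symm
  exact DFunLike.congr_fun this x

theorem map_back (x : Abelianization (FreeGroup (Fin (m + 2)))) :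
    Abelianization.map (S m).subtype (back m x) = x := by
  have : ((Abelianization.map (S m).subtype).comp (back m)) = MonoidHom.id _ := by
    apply Abelianization.hom_ext
    apply FreeGroup.ext_hom
    intro i
    show Abelianization.map (S m).subtype (back m (Abelianization.of (of i))) =
      Abelianization.of (of i)
    rw [back_of]
    by_cases hi : i = 1
    · subst hi
      rw [gens, Function.update_self, map_mul, map_inv, map_inv, cls, cls, Abelianization.map_of,
        Abelianization.map_of]
      show (Abelianization.of (gen m 1))⁻¹ * (Abelianization.of (gen m 0))⁻¹ =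
        Abelianization.of (of 1)
      rw [gen_one, gen_zero, uel, map_mul, map_mul, map_mul, map_inv, map_inv]
      generalize (Abelianization.of (of 0 : FreeGroup (Fin (m + 2)))) = x
      generalize (Abelianization.of (of 1 : FreeGroup (Fin (m + 2)))) = z
      rw [mul_inv_rev, mul_inv_rev, mul_inv_rev, inv_inv, inv_inv]
      calc z * (z * (x * z⁻¹)) * x⁻¹ = z * ((z * z⁻¹) * (x * x⁻¹)) := by
            simp only [mul_comm, mul_left_comm, mul_assoc]
        _ = z := by simp
    · rw [gens, Function.update_of_ne hi, cls, Abelianization.map_of]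
      show Abelianization.of (gen m i) = _
      rw [gen_of_ne m hi]
  exact DFunLike.congr_fun this x

/-- the map on `H_1` with any coefficients is bijective -/
theorem bij (M : Type*) [AddCommGroup M] : Function.Bijective (LinearMap.rTensor M
    (AddMonoidHom.toIntLinearMap (MonoidHom.toAdditive (Abelianization.map (S m).subtype)))) :=
  bij_of_inverse' _ (back m) (back_map m) (map_back m) M

/-! ### the identity in `F` -/

/-- `F(b, c, t) → F` sending `c` to `(t t b t⁻¹)⁻¹` -/
def θ : FreeGroup (Fin 3) →* FreeGroup (Fin (m + 2)) := FreeGroup.lift ![of 0, uel m, of 1]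

/-- `F(b, c) → F` sending `c` to `(t t b t⁻¹)⁻¹` -/
def φ : FreeGroup (Fin 2) →* FreeGroup (Fin (m + 2)) := FreeGroup.lift ![of 0, uel m]

theorem θ_W : θ m (mk W) = 1 := by
  rw [W_eq]
  simp only [map_mul, map_inv, θ, FreeGroup.lift_apply_of, Matrix.cons_val_zero,
    Matrix.cons_val_one, Matrix.cons_val, uel]
  group

theorem θ_emb_one (x : Fin 2 × Bool) : θ m (mk (emb [x])) = φ m (mk [x]) := by
  obtain ⟨a, b⟩ := x
  have key : θ m (mk [(a.castSucc, true)]) = φ m (mk [(a, true)]) := by
    show θ m (of a.castSucc) = φ m (of a)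
    rw [θ, φ, FreeGroup.lift_apply_of, FreeGroup.lift_apply_of]
    fin_cases a <;> rfl
  cases b with
  | true => exact key
  | false =>
    have h1 : (mk [(a.castSucc, false)] : FreeGroup (Fin 3)) = (mk [(a.castSucc, true)])⁻¹ := by
      rw [inv_mk]; rfl
    have h2 : (mk [(a, false)] : FreeGroup (Fin 2)) = (mk [(a, true)])⁻¹ := by
      rw [inv_mk]; rfl
    show θ m (mk [(a.castSucc, false)]) = φ m (mk [(a, false)])
    rw [h1, h2, map_inv, map_inv, key]

theorem θ_emb (L : List (Fin 2 × Bool)) : θ m (mk (emb L)) = φ m (mk L) := by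
  induction L with
  | nil => exact (map_one (θ m)).trans (map_one (φ m)).symm
  | cons x L ih =>
    have h1 : (mk (emb (x :: L)) : FreeGroup (Fin 3)) = mk (emb [x]) * mk (emb L) := by
      rw [mul_mk]; rfl
    rw [h1, mk_cons, map_mul, map_mul, ih, θ_emb_one]

theorem θ_item (o : Option (Fin 2 × Bool) × Bool) :
    θ m (mk (item o)) = φ m (mk (optW o.1)) := by
  obtain ⟨o, s⟩ := o
  cases o with
  | some x => exact θ_emb_one m x
  | none =>
    have h1 : φ m (mk (optW none)) = 1 := map_one (φ m)
    cases s with
    | true => exact (θ_W m).trans h1.symm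
    | false =>
      have : (mk (invRev W) : FreeGroup (Fin 3)) = (mk W)⁻¹ := by rw [inv_mk]
      show θ m (mk (invRev W)) = _
      rw [this, map_inv, θ_W, inv_one]
      exact h1.symm

/-- the entries of `data` which are letters -/
def D8 : List ((Option (Fin 2 × Bool) × Bool) × List (Fin 3 × Bool)) :=
  data.filter (fun p => p.1.1.isSome)

/-- the eight letters -/
def LO8 : List (Option (Fin 2 × Bool)) := D8.map (fun p => p.1.1)

theorem LO8_length : LO8.length = 8 := by decide +kernel

theorem LO8_sum : (LO8.map optM).sum = (P0 : Multiset (Fin 2 × Bool)) := by decide +kernel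

/-- the eight letters, followed by `r` trivial elements -/
def LO (r : ℕ) : List (Option (Fin 2 × Bool)) := LO8 ++ List.replicate r none

theorem LO_length (r : ℕ) : (LO r).length = 8 + r := by
  rw [LO, List.length_append, LO8_length, List.length_replicate]

theorem LO_sum (r : ℕ) : ((LO r).map optM).sum = (P0 : Multiset (Fin 2 × Bool)) := by
  rw [LO, List.map_append, List.sum_append, LO8_sum, List.map_replicate, List.sum_replicate]
  have : optM (none : Option (Fin 2 × Bool)) = 0 := rfl
  rw [this, smul_zero, add_zero]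

/-- the identity in `F` -/
theorem ident8 : φ m (mk aw) = (D8.map (fun p => θ m (mk p.2) * φ m (mk (optW p.1.1)) *
    (θ m (mk p.2))⁻¹)).prod := by
  rw [← θ_emb, identity, map_list_prod, List.map_map, D8, prod_filter]
  · congr 1
    apply List.map_congr_left
    intro p _
    show θ m (mk p.2 * mk (item p.1) * (mk p.2)⁻¹) = _
    rw [map_mul, map_mul, map_inv, θ_item]
  · intro x _ hx
    have hn : x.1.1 = none := by simpa using hx
    rw [hn]
    have h1 : φ m (mk (optW none)) = 1 := map_one (φ m)
    rw [h1]
    simp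

/-! ### the elements of `S` -/

theorem φ_mem (x : FreeGroup (Fin 2)) : φ m x ∈ S m := by
  have h : (φ m).range ≤ S m := by
    apply FreeGroup.range_lift_le
    rintro _ ⟨i, rfl⟩
    fin_cases i
    · have := gen_mem m 0
      rw [gen_zero] at this
      exact this
    · have := gen_mem m 1
      rw [gen_one] at this
      exact this
  exact h ⟨x, rfl⟩

/-- the elements `g_i` -/
def elt (o : Option (Fin 2 × Bool)) : S m := ⟨φ m (mk (optW o)), φ_mem m _⟩

/-- the element `a` -/
def ael : S m := ⟨φ m (mk aw), φ_mem m _⟩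

theorem ident (r : ℕ) : ∃ T : List (FreeGroup (Fin (m + 2)) × FreeGroup (Fin (m + 2))),
    T.map Prod.snd = ((LO r).map (elt m)).map Subtype.val ∧
      (ael m : FreeGroup (Fin (m + 2))) = (T.map fun p => p.1 * p.2 * p.1⁻¹).prod := by
  refine ⟨D8.map (fun p => (θ m (mk p.2), φ m (mk (optW p.1.1)))) ++
    List.replicate r (1, 1), ?_, ?_⟩
  · rw [List.map_append, List.map_map, List.map_replicate, LO, List.map_append, List.map_append,
      List.map_replicate, List.map_replicate, LO8, List.map_map, List.map_map]
    have h1 : ((elt m none : S m) : FreeGroup (Fin (m + 2))) = 1 := map_one (φ m)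
    rw [h1]
    rfl
  · rw [List.map_append, List.prod_append, List.map_map, List.map_replicate, List.prod_replicate]
    show φ m (mk aw) = _
    rw [ident8]
    simp [Function.comp_def]

/-! ### `a` is not a product of `S`-conjugates -/

/-- the retraction to rank two, followed by the inclusion in `F(b, c, t)` -/
def κ : FreeGroup (Fin (m + 2)) →* FreeGroup (Fin 3) :=
  FreeGroup.lift (fun i => if i = 0 then of 0 else if i = 1 then of 2 else 1)

theorem κ_zero : κ m (of 0) = of 0 := by
  rw [κ, FreeGroup.lift_apply_of, if_pos rfl]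

theorem κ_one : κ m (of 1) = of 2 := by
  rw [κ, FreeGroup.lift_apply_of, if_neg (by simp), if_pos rfl]

theorem κ_u : κ m (uel m) = of 1 * (mk W)⁻¹ := by
  rw [uel, W_eq, map_mul, map_mul, map_mul, map_inv, map_inv, κ_zero, κ_one]
  group

theorem rel_u : Rel (κ m (uel m)) (of 1) := by
  rw [κ_u]
  have := rel_c.mul rel_w.inv
  rwa [inv_one, mul_one] at this

theorem exists_rel {s : FreeGroup (Fin (m + 2))} (hs : s ∈ S m) : ∃ h, Rel (κ m s) h := by
  refine Subgroup.closure_induction (p := fun s _ => ∃ h, Rel (κ m s) h) ?_ ?_ ?_ ?_ hs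
  · rintro x ⟨i, rfl⟩
    by_cases h1 : i = 1
    · subst h1
      rw [gen_one]
      exact ⟨_, rel_u m⟩
    · rw [gen_of_ne m h1]
      by_cases h0 : i = 0
      · subst h0
        rw [κ_zero]
        exact ⟨_, rel_b⟩
      · rw [κ, FreeGroup.lift_apply_of, if_neg h0, if_neg h1]
        exact ⟨_, Rel.one⟩
  · rw [map_one]
    exact ⟨_, Rel.one⟩
  · rintro x y _ _ ⟨h, H⟩ ⟨h', H'⟩
    rw [map_mul]
    exact ⟨_, H.mul H'⟩
  · rintro x _ ⟨h, H⟩
    rw [map_inv]
    exact ⟨_, H.inv⟩

theorem rel_φ_of (i : Fin 2) : Rel (κ m (φ m (of i))) (of i) := by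
  rw [φ, FreeGroup.lift_apply_of]
  fin_cases i
  · show Rel (κ m (of 0)) (of 0)
    rw [κ_zero]; exact rel_b
  · exact rel_u m

theorem rel_φ (x : FreeGroup (Fin 2)) : Rel (κ m (φ m x)) x := by
  induction x using FreeGroup.induction_on with
  | C1 => rw [map_one, map_one]; exact Rel.one
  | of i => exact rel_φ_of m i
  | inv_of i h => rw [map_inv, map_inv]; exact h.inv
  | mul x y hx hy => rw [map_mul, map_mul]; exact hx.mul hy

theorem transfer : ∀ (L : List (Option (Fin 2 × Bool))) (T : List (S m × S m)),
    T.map Prod.snd = L.map (elt m) →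
    ∃ T' : List (FreeGroup (Fin 2) × Option (Fin 2 × Bool)), T'.map Prod.snd = L ∧
      Rel (κ m ((T.map fun p => p.1 * p.2 * p.1⁻¹).prod : S m))
        (T'.map (fun p => p.1 * mk (optW p.2) * p.1⁻¹)).prod
  | [], [], _ => ⟨[], rfl, by
      rw [List.map_nil, List.prod_nil, Subgroup.coe_one, map_one]; exact Rel.one⟩
  | [], _ :: _, h => by simp at h
  | _ :: _, [], h => by simp at h
  | o :: L, p :: T, h => by
    rw [List.map_cons, List.map_cons, List.cons.injEq] at h
    obtain ⟨T', h1, h2⟩ := transfer L T h.2
    obtain ⟨g, H⟩ := exists_rel m p.1.2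
    refine ⟨(g, o) :: T', ?_, ?_⟩
    · simp [h1]
    · rw [List.map_cons, List.prod_cons, List.map_cons, List.prod_cons, Subgroup.coe_mul, map_mul]
      refine Rel.mul ?_ h2
      rw [Subgroup.coe_mul, Subgroup.coe_mul, Subgroup.coe_inv, map_mul, map_mul, map_inv]
      refine (H.mul ?_).mul H.inv
      rw [h.1]
      exact rel_φ m _

theorem no_conj (r : ℕ) (T : List (S m × S m)) (hT : T.map Prod.snd = (LO r).map (elt m))
    (he : ael m = (T.map fun p => p.1 * p.2 * p.1⁻¹).prod) : False := by
  obtain ⟨T', h1, h2⟩ := transfer m _ T hT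
  rw [← he] at h2
  have h3 := Rel.unique (rel_φ m (mk aw)) h2
  have h4 := deletion T' h3
  have h5 : (T'.map (fun p => optM p.2)).sum = (P0 : Multiset (Fin 2 × Bool)) := by
    have e1 : T'.map (fun p => optM p.2) = (T'.map Prod.snd).map optM := by
      rw [List.map_map]; rfl
    rw [e1, h1, LO_sum]
  rw [h5] at h4
  exact not_good h4

/-- for every `n ≥ 8` there are `a, g_1, …, g_n` in `S`, dependent in `F` and not in `S` -/
theorem main (n : ℕ) (hn : 8 ≤ n) : ∃ (a : S m) (g : Fin n → S m),
    Dependent (a : FreeGroup (Fin (m + 2))) (fun i => (g i : FreeGroup (Fin (m + 2)))) ∧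
      ¬ Dependent a g := by
  obtain ⟨r, rfl⟩ := Nat.exists_eq_add_of_le hn
  obtain ⟨g, hg⟩ := exists_fn ((LO r).map (elt m)) (n := 8 + r) (by
    rw [List.length_map, LO_length])
  refine ⟨ael m, g, ?_, ?_⟩
  · rw [dependent_iff]
    obtain ⟨T, h1, h2⟩ := ident m r
    refine ⟨T, ?_, h2⟩
    rw [h1, ← hg, List.map_ofFn]
    rfl
  · rw [dependent_iff]
    rintro ⟨T, h1, h2⟩
    rw [hg] at h1
    exact no_conj m r T h1 h2

end Pool.Agent.Y874.StB
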