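import Pool.Agent.Y874.StB.Core

/-!
# Nilpotent groups

The identity holds in every nilpotent group, although it fails in the free group.
-/

set_option autoImplicit false

namespace Pool.Agent.Y874.StB

open FreeGroup hiding map_mul map_inv map_one
open Pool.Agent.Helper158.Stall

/-- in a nilpotent group the equation `t t b t⁻¹ = d` is solvable -/
theorem nil_solve (N : Type*) [Group N] [Group.IsNilpotent N] :
    ∀ b d : N, ∃ t : N, t * t * b * t⁻¹ = d := by
  refine Group.nilpotent_center_quotient_ind (P := fun N _ _ =>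
    ∀ b d : N, ∃ t : N, t * t * b * t⁻¹ = d) N ?_ ?_
  · intro G _ _ b d
    exact ⟨1, Subsingleton.elim _ _⟩
  · intro G _ _ ih b d
    obtain ⟨t', ht⟩ := ih (b : G ⧸ Subgroup.center G) (d : G ⧸ Subgroup.center G)
    obtain ⟨t, rfl⟩ := QuotientGroup.mk_surjective t'
    have h1 : (t * t * b * t⁻¹)⁻¹ * d ∈ Subgroup.center G := by
      rw [← QuotientGroup.eq]
      exact ht
    set z := (t * t * b * t⁻¹)⁻¹ * d with hz
    have hc : ∀ g : G, g * z = z * g := fun g => (Subgroup.mem_center_iff.1 h1 g)
    refine ⟨t * z, ?_⟩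
    have hd : d = t * t * b * t⁻¹ * z := by rw [hz]; group
    rw [hd, mul_inv_rev]
    calc t * z * (t * z) * b * (z⁻¹ * t⁻¹) = t * (z * t) * z * b * z⁻¹ * t⁻¹ := by
          simp only [mul_assoc]
      _ = t * (t * z) * z * b * z⁻¹ * t⁻¹ := by rw [hc t]
      _ = t * t * z * (z * b) * z⁻¹ * t⁻¹ := by simp only [mul_assoc]
      _ = t * t * z * (b * z) * z⁻¹ * t⁻¹ := by rw [hc b]
      _ = t * t * (z * (b * t⁻¹)) := by group
      _ = t * t * ((b * t⁻¹) * z) := by rw [hc (b * t⁻¹)]
      _ = t * t * b * t⁻¹ * z := by simp only [mul_assoc]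

theorem Dependent.map {G H : Type*} [Group G] [Group H] (f : G →* H) {n : ℕ} {a : G}
    {g : Fin n → G} (h : Dependent a g) : Dependent (f a) (fun i => f (g i)) := by
  obtain ⟨c, hc⟩ := h
  refine ⟨fun i => f (c i), ?_⟩
  rw [hc, map_list_prod, List.map_ofFn]
  congr 1
  apply congrArg
  funext i
  simp

/-- the letters and the trivial element, in `F(b, c)` -/
def lel (o : Option (Fin 2 × Bool)) : FreeGroup (Fin 2) := mk (optW o)

theorem ident_nil (N : Type*) [Group N] [Group.IsNilpotent N] (f : FreeGroup (Fin 2) →* N)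
    (r : ℕ) : ∃ T : List (N × N), T.map Prod.snd = (LO r).map (fun o => f (lel o)) ∧
      f (mk aw) = (T.map fun p => p.1 * p.2 * p.1⁻¹).prod := by
  obtain ⟨t, ht⟩ := nil_solve N (f (of 0)) (f (of 1))⁻¹
  let ψ : FreeGroup (Fin 3) →* N := FreeGroup.lift ![f (of 0), f (of 1), t]
  have hW : ψ (mk W) = 1 := by
    rw [W_eq]
    simp only [map_mul, map_inv, ψ, FreeGroup.lift_apply_of, Matrix.cons_val_zero,
      Matrix.cons_val_one, Matrix.cons_val]
    rw [ht, inv_mul_cancel]
  have h1 : ∀ x : Fin 2 × Bool, ψ (mk (emb [x])) = f (mk [x]) := by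
    rintro ⟨a, b⟩
    have key : ψ (mk [(a.castSucc, true)]) = f (mk [(a, true)]) := by
      show ψ (of a.castSucc) = f (of a)
      simp only [ψ, FreeGroup.lift_apply_of]
      fin_cases a <;> rfl
    cases b with
    | true => exact key
    | false =>
      have h1 : (mk [(a.castSucc, false)] : FreeGroup (Fin 3)) = (mk [(a.castSucc, true)])⁻¹ := by
        rw [inv_mk]; rfl
      have h2 : (mk [(a, false)] : FreeGroup (Fin 2)) = (mk [(a, true)])⁻¹ := by
        rw [inv_mk]; rfl
      show ψ (mk [(a.castSucc, false)]) = f (mk [(a, false)])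
      rw [h1, h2, map_inv, map_inv, key]
  have h2 : ∀ L : List (Fin 2 × Bool), ψ (mk (emb L)) = f (mk L) := by
    intro L
    induction L with
    | nil => exact (map_one ψ).trans (map_one f).symm
    | cons x L ih =>
      have e : (mk (emb (x :: L)) : FreeGroup (Fin 3)) = mk (emb [x]) * mk (emb L) := by
        rw [mul_mk]; rfl
      rw [e, mk_cons, map_mul, map_mul, ih, h1]
  have h3 : ∀ o : Option (Fin 2 × Bool) × Bool, ψ (mk (item o)) = f (lel o.1) := by
    rintro ⟨o, s⟩
    cases o with
    | some x => exact h1 x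
    | none =>
      have e1 : f (lel none) = 1 := map_one f
      cases s with
      | true => exact hW.trans e1.symm
      | false =>
        have : (mk (invRev W) : FreeGroup (Fin 3)) = (mk W)⁻¹ := by rw [inv_mk]
        show ψ (mk (invRev W)) = _
        rw [this, map_inv, hW, inv_one]
        exact e1.symm
  have h8 : f (mk aw) = (D8.map (fun p => ψ (mk p.2) * f (lel p.1.1) * (ψ (mk p.2))⁻¹)).prod := by
    rw [← h2, identity, map_list_prod, List.map_map, D8, prod_filter]
    · congr 1
      apply List.map_congr_left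
      intro p _
      show ψ (mk p.2 * mk (item p.1) * (mk p.2)⁻¹) = _
      rw [map_mul, map_mul, map_inv, h3]
    · intro x _ hx
      have hn : x.1.1 = none := by simpa using hx
      rw [hn]
      have h1 : f (lel none) = 1 := map_one f
      rw [h1]
      simp
  refine ⟨D8.map (fun p => (ψ (mk p.2), f (lel p.1.1))) ++ List.replicate r (1, 1), ?_, ?_⟩
  · rw [List.map_append, List.map_map, List.map_replicate, LO, List.map_append,
      List.map_replicate, LO8, List.map_map]
    have e1 : f (lel none) = 1 := map_one f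
    rw [e1]
    rfl
  · rw [List.map_append, List.prod_append, List.map_map, List.map_replicate, List.prod_replicate,
      h8]
    simp [Function.comp_def]

theorem no_conj_free (r : ℕ) (T : List (FreeGroup (Fin 2) × FreeGroup (Fin 2)))
    (hT : T.map Prod.snd = (LO r).map lel)
    (he : mk aw = (T.map fun p => p.1 * p.2 * p.1⁻¹).prod) : False := by
  have key : ∀ (L : List (Option (Fin 2 × Bool))) (T : List (FreeGroup (Fin 2) × FreeGroup (Fin 2))),
      T.map Prod.snd = L.map lel →
      ∃ T' : List (FreeGroup (Fin 2) × Option (Fin 2 × Bool)), T'.map Prod.snd = L ∧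
        (T.map fun p => p.1 * p.2 * p.1⁻¹).prod =
          (T'.map (fun p => p.1 * mk (optW p.2) * p.1⁻¹)).prod := by
    intro L
    induction L with
    | nil =>
      intro T h
      have : T = [] := by simpa using h
      subst this
      exact ⟨[], rfl, rfl⟩
    | cons o L ih =>
      intro T h
      cases T with
      | nil => simp at h
      | cons p T =>
        rw [List.map_cons, List.map_cons, List.cons.injEq] at h
        obtain ⟨T', h1, h2⟩ := ih T h.2
        refine ⟨(p.1, o) :: T', ?_, ?_⟩
        · simp [h1]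
        · rw [List.map_cons, List.prod_cons, List.map_cons, List.prod_cons, h2, h.1]
          rfl
  obtain ⟨T', h1, h2⟩ := key _ T hT
  rw [← he] at h2
  have h4 := deletion T' h2
  have h5 : (T'.map (fun p => optM p.2)).sum = (P0 : Multiset (Fin 2 × Bool)) := by
    have e1 : T'.map (fun p => optM p.2) = (T'.map Prod.snd).map optM := by
      rw [List.map_map]; rfl
    rw [e1, h1, LO_sum]
  rw [h5] at h4
  exact not_good h4

/-- inclusion in rank `m + 2` -/
def ι (m : ℕ) : FreeGroup (Fin 2) →* FreeGroup (Fin (m + 2)) := FreeGroup.lift ![of 0, of 1]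

/-- retraction from rank `m + 2` -/
def ρ (m : ℕ) : FreeGroup (Fin (m + 2)) →* FreeGroup (Fin 2) :=
  FreeGroup.lift (fun i => if i = 0 then of 0 else if i = 1 then of 1 else 1)

theorem ρ_ι (m : ℕ) (x : FreeGroup (Fin 2)) : ρ m (ι m x) = x := by
  have : (ρ m).comp (ι m) = MonoidHom.id _ := by
    apply FreeGroup.ext_hom
    intro i
    fin_cases i
    · show ρ m (ι m (of 0)) = of 0
      rw [ι, FreeGroup.lift_apply_of]
      show ρ m (of 0) = of 0
      rw [ρ, FreeGroup.lift_apply_of, if_pos rfl]
    · show ρ m (ι m (of 1)) = of 1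
      rw [ι, FreeGroup.lift_apply_of]
      show ρ m (of 1) = of 1
      rw [ρ, FreeGroup.lift_apply_of, if_neg (by simp), if_pos rfl]
  exact DFunLike.congr_fun this x

/-- a product of `n` conjugates in every nilpotent group, but not in the free group -/
theorem nil_main (m n : ℕ) (hn : 8 ≤ n) : ∃ (a : FreeGroup (Fin (m + 2)))
    (g : Fin n → FreeGroup (Fin (m + 2))), ¬ Dependent a g ∧
      ∀ (N : Type) [Group N] [Group.IsNilpotent N] (f : FreeGroup (Fin (m + 2)) →* N),
        Dependent (f a) (fun i => f (g i)) := by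
  obtain ⟨r, rfl⟩ := Nat.exists_eq_add_of_le hn
  obtain ⟨g, hg⟩ := exists_fn ((LO r).map lel) (n := 8 + r) (by
    rw [List.length_map, LO_length])
  refine ⟨ι m (mk aw), fun i => ι m (g i), ?_, ?_⟩
  · intro h
    have h1 := h.map (ρ m)
    simp only [ρ_ι] at h1
    rw [dependent_iff] at h1
    obtain ⟨T, h1, h2⟩ := h1
    rw [hg] at h1
    exact no_conj_free r T h1 h2
  · intro N _ _ f
    obtain ⟨T, h1, h2⟩ := ident_nil N (f.comp (ι m)) r
    rw [dependent_iff]
    refine ⟨T, ?_, h2⟩
    rw [h1]
    have : List.ofFn (fun i => f (ι m (g i))) = (List.ofFn g).map (fun x => f (ι m x)) := by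
      rw [List.map_ofFn]; rfl
    rw [this, hg, List.map_map]
    rfl

end Pool.Agent.Y874.StB
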